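import Mathlib
import Pool.Agent.D0H45.TH.Stm

/-! Project TH (helper45), module SQRT. -/

set_option autoImplicit false

namespace Pool.Agent.D0H22.TH

open Pool.Agent.D0H45.TH Topology Filter

section
variable {F : Type} [NormedField F] [IsUltrametricDist F]

lemma two_le : ‖(2 : F)‖ ≤ 1 := by
  simpa using IsUltrametricDist.norm_natCast_le_one F 2

lemma two_pos' [CharZero F] : 0 < ‖(2 : F)‖ := norm_pos_iff.2 two_ne_zero

lemma exists_root [IsAlgClosed F] [CharZero F] (x : F) (hx : ‖x - 1‖ < ‖(2 : F)‖ ^ 2) :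
    ∃ s : F, s ^ 2 = x ∧ ‖s - 1‖ < ‖(2 : F)‖ := by
  obtain ⟨s, hs⟩ := IsAlgClosed.exists_pow_nat_eq x two_pos
  have h2 : 0 < ‖(2 : F)‖ := two_pos'
  have h1 : ‖s - 1‖ * ‖s + 1‖ < ‖(2 : F)‖ ^ 2 := by
    rw [← norm_mul]
    have : (s - 1) * (s + 1) = x - 1 := by rw [← hs]; ring
    rw [this]; exact hx
  by_cases h : ‖s - 1‖ < ‖(2 : F)‖
  · exact ⟨s, hs, h⟩
  · push Not at h
    refine ⟨-s, by rw [neg_sq, hs], ?_⟩
    have h3 : ‖-s - 1‖ = ‖s + 1‖ := by rw [← norm_neg]; congr 1; ring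
    rw [h3]
    by_contra h4
    push Not at h4
    nlinarith

lemma uniq (s t : F) (h : s ^ 2 = t ^ 2) (hs : ‖s - 1‖ < ‖(2 : F)‖) (ht : ‖t - 1‖ < ‖(2 : F)‖) :
    s = t := by
  rcases sq_eq_sq_iff_eq_or_eq_neg.1 h with h1 | h1
  · exact h1
  · exfalso
    have h2 : (2 : F) = -(s - 1) + -(t - 1) := by rw [h1]; ring
    have h3 := IsUltrametricDist.norm_add_le_max (-(s - 1)) (-(t - 1))
    rw [← h2, norm_neg, norm_neg] at h3
    exact absurd h3 (not_le.2 (max_lt hs ht))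

lemma norm_one' (s : F) (hs : ‖s - 1‖ < ‖(2 : F)‖) : ‖s‖ ≤ 1 := by
  have h3 := IsUltrametricDist.norm_add_le_max (s - 1) 1
  rw [sub_add_cancel, norm_one] at h3
  exact h3.trans (max_le (hs.le.trans two_le) le_rfl)

lemma mul_near (s t : F) (hs : ‖s - 1‖ < ‖(2 : F)‖) (ht : ‖t - 1‖ < ‖(2 : F)‖) :
    ‖s * t - 1‖ < ‖(2 : F)‖ := by
  have h2 : s * t - 1 = s * (t - 1) + (s - 1) := by ring
  rw [h2]
  refine (IsUltrametricDist.norm_add_le_max _ _).trans_lt (max_lt ?_ hs)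
  rw [norm_mul]
  calc ‖s‖ * ‖t - 1‖ ≤ 1 * ‖t - 1‖ := by
        gcongr; exact norm_one' s hs
    _ < ‖(2 : F)‖ := by rw [one_mul]; exact ht

lemma sum_two (s t : F) (hs : ‖s - 1‖ < ‖(2 : F)‖) (ht : ‖t - 1‖ < ‖(2 : F)‖) :
    ‖(2 : F)‖ ≤ ‖s + t‖ := by
  by_contra h
  push Not at h
  have h2 : (2 : F) = (s + t) + (-(s - 1) + -(t - 1)) := by ring
  have h3 := IsUltrametricDist.norm_add_le_max (s + t) (-(s - 1) + -(t - 1))
  have h4 := IsUltrametricDist.norm_add_le_max (-(s - 1)) (-(t - 1))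
  rw [norm_neg, norm_neg] at h4
  rw [← h2] at h3
  exact absurd h3 (not_le.2 (max_lt h (h4.trans_lt (max_lt hs ht))))

lemma lip [CharZero F] (s t : F) (hs : ‖s - 1‖ < ‖(2 : F)‖) (ht : ‖t - 1‖ < ‖(2 : F)‖) :
    ‖s - t‖ ≤ ‖(2 : F)‖⁻¹ * ‖s ^ 2 - t ^ 2‖ := by
  have h1 : s ^ 2 - t ^ 2 = (s - t) * (s + t) := by ring
  have h2 : 0 < ‖(2 : F)‖ := two_pos'
  rw [h1, norm_mul, ← mul_assoc, mul_comm ‖(2 : F)‖⁻¹, mul_assoc]
  have h3 : 1 ≤ ‖(2 : F)‖⁻¹ * ‖s + t‖ := by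
    rw [← div_eq_inv_mul, one_le_div h2]
    exact sum_two s t hs ht
  nlinarith [norm_nonneg (s - t)]

end

theorem t_SQRT : S_SQRT := by
  intro F G _ _ _ _ _ _ _ _ _ _ c w hc
  classical
  have hcne : ∀ g, c g ≠ 0 := by
    intro g h
    have : c g * c g⁻¹ = 1 := by rw [← map_mul, mul_inv_cancel, map_one]
    rw [h, zero_mul] at this
    exact zero_ne_one this
  have hinv : ∀ g, c g⁻¹ = (c g)⁻¹ := by
    intro g
    have : c g * c g⁻¹ = 1 := by rw [← map_mul, mul_inv_cancel, map_one]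
    exact eq_inv_of_mul_eq_one_right this
  have hzp : ∀ g, c (g ^ w) = c g ^ w := fun g => map_zpow' c hinv g w
  have hcont : Continuous fun g => c g ^ w := by
    have : (fun g => c g ^ w) = fun g => c (g ^ w) := funext fun g => (hzp g).symm
    rw [this]
    exact hc.comp (continuous_zpow w)
  have h2 : 0 < ‖(2 : F)‖ := two_pos'
  have hopen : IsOpen {g : G | ‖c g ^ w - 1‖ < ‖(2 : F)‖ ^ 2} :=
    isOpen_lt ((hcont.sub continuous_const).norm) continuous_const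
  have hmem : (1 : G) ∈ {g : G | ‖c g ^ w - 1‖ < ‖(2 : F)‖ ^ 2} := by
    show ‖c 1 ^ w - 1‖ < ‖(2 : F)‖ ^ 2
    rw [map_one, one_zpow, sub_self, norm_zero]
    positivity
  obtain ⟨H, hH⟩ := ProfiniteGrp.exist_openNormalSubgroup_sub_open_nhds_of_one hopen hmem
  let ψ : G → F := fun g => if h : ‖c g ^ w - 1‖ < ‖(2 : F)‖ ^ 2 then
    (exists_root (c g ^ w) h).choose else 1
  have hψ : ∀ g, ‖c g ^ w - 1‖ < ‖(2 : F)‖ ^ 2 → ψ g ^ 2 = c g ^ w ∧ ‖ψ g - 1‖ < ‖(2 : F)‖ := by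
    intro g hg
    simp only [ψ, dif_pos hg]
    exact (exists_root (c g ^ w) hg).choose_spec
  have hU : ∀ u ∈ (H : Subgroup G), ‖c u ^ w - 1‖ < ‖(2 : F)‖ ^ 2 := fun u hu => hH hu
  refine ⟨(H : Subgroup G), ψ, inferInstance, H.isOpen', ?_, ?_, fun u hu => (hψ u (hU u hu)).1⟩
  · refine ⟨?_, ?_, ?_, ?_⟩
    · have h3 := hψ 1 (hU 1 (one_mem _))
      apply uniq _ _ _ h3.2 (by rw [sub_self, norm_zero]; exact h2)
      rw [h3.1, map_one, one_zpow, one_pow]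
    · intro u hu v hv
      have h3 := hψ (u * v) (hU _ (mul_mem hu hv))
      have h4 := hψ u (hU u hu)
      have h5 := hψ v (hU v hv)
      apply uniq _ _ _ h3.2 (mul_near _ _ h4.2 h5.2)
      rw [h3.1, mul_pow, h4.1, h5.1, map_mul, mul_zpow]
    · intro u hu g
      have h6 : c (g * u * g⁻¹) = c u := by
        rw [map_mul, map_mul, hinv, mul_comm (c g), mul_assoc, mul_inv_cancel₀ (hcne g), mul_one]
      have h7 : g * u * g⁻¹ ∈ (H : Subgroup G) := H.isNormal'.conj_mem u hu g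
      have h3 := hψ _ (hU _ h7)
      have h4 := hψ u (hU u hu)
      apply uniq _ _ _ h3.2 h4.2
      rw [h3.1, h4.1, h6]
    · intro u hu h
      have h4 := hψ u (hU u hu)
      rw [h] at h4
      have h5 := h4.1
      rw [zero_pow two_ne_zero] at h5
      exact zpow_ne_zero w (hcne u) h5.symm
  · intro u hu
    have h4 := hψ u (hU u hu)
    show Tendsto ψ (𝓝[(H : Subgroup G)] u) (𝓝 (ψ u))
    rw [tendsto_iff_norm_sub_tendsto_zero]
    have h5 : Tendsto (fun v => ‖(2 : F)‖⁻¹ * ‖c v ^ w - c u ^ w‖) (𝓝[(H : Subgroup G)] u) (𝓝 0) := by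
      have h6 : Tendsto (fun v => ‖(2 : F)‖⁻¹ * ‖c v ^ w - c u ^ w‖) (𝓝 u)
          (𝓝 (‖(2 : F)‖⁻¹ * ‖c u ^ w - c u ^ w‖)) :=
        (((hcont.sub continuous_const).norm).tendsto u).const_mul _
      rw [sub_self, norm_zero, mul_zero] at h6
      exact h6.mono_left nhdsWithin_le_nhds
    refine squeeze_zero' (Eventually.of_forall fun _ => norm_nonneg _) ?_ h5
    filter_upwards [self_mem_nhdsWithin] with v hv
    have h7 := hψ v (hU v hv)
    rw [← h7.1, ← h4.1]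
    exact lip _ _ h7.2 h4.2

end Pool.Agent.D0H22.TH
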